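import Pool.Agent.Y742.HC.All

/-!
# Conic fibrations without common invariants and the Hilbert property

Let `X` be a variety over a finitely generated field `k` of characteristic zero which has several
conic fibrations `X ⇢ B_i` (`L i` is the function field of `B_i`) such that only the constants are
algebraic over all the `L i`. Then `X` is unirational as soon as its `k`-points are dense, or as
soon as it has one general `k`-point, and `X` has the Hilbert property as soon as its `k`-points are
dense and it has no covers which are pulled back from all the bases; in particular if every prime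
divisor of `X` dominates one of the bases and `X` has no covers unramified in codimension one.
-/

set_option autoImplicit false

namespace Pool.Agent.Results.MP_87f965_ag.ConicFibrations

open AlgebraicGeometry CategoryTheory W560.HP Pool.Agent.Y742.HC
open Pool.Agent.TH178.HI (IsConicOver)

theorem result (k : Type) [Field k] [CharZero k]
    (hk : ∃ S : Finset k, IntermediateField.adjoin ℚ (S : Set k) = ⊤)
    (K : Type) [Field K] [Algebra k K]
    (X : Scheme.{0}) (p : X ⟶ Spec (CommRingCat.of k)) [IsIntegral X] [LocallyOfFiniteType p]
    (e : X.functionField ≃+* K) (he : ∀ a : k, e (toFF k X p a) = algebraMap k K a)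
    {m : ℕ} (L : Fin m → IntermediateField k K) (hL : ∀ i, IsConicOver (L i))
    (hinv : ∀ a : K, (∀ i, IsAlgebraic (L i) a) → a ∈ Set.range (algebraMap k K)) :
    (∃ V : X.Opens, (V : Set X).Nonempty ∧
      [∃ s : Spec (CommRingCat.of k) ⟶ X, s ≫ p = 𝟙 _ ∧ ∃ z ∈ V, z ∈ Set.range s.base,
        DensePoints k X p, UnirationalScheme k X p].TFAE) ∧
    (DensePoints k X p →
      (∀ (M : Type) [Field M] [Algebra k M] [Algebra K M] [IsScalarTower k K M]
        [FiniteDimensional K M], (∀ a : M, IsAlgebraic k a → a ∈ Set.range (algebraMap k M)) →
        (∀ i, IntermediateField.adjoin K {z : M | IsAlgebraic (L i) z} = ⊤) →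
        (∀ P : FF.Place k K, (∃ i, Horizontal (L i) P) → UnramifiedAt M P) →
        Function.Surjective (algebraMap K M)) →
      HilbertProperty k X p ∧
      ((∀ x : X, IsIntegrallyClosed (X.presheaf.stalk x)) → HilbertPropertyIso k X p)) ∧
    (DensePoints k X p →
      (∀ P : FF.Place k K, PlaceOn k X e P → ∃ i, Horizontal (L i) P) →
      (∀ (M : Type) [Field M] [Algebra k M] [Algebra K M] [IsScalarTower k K M]
        [FiniteDimensional K M], (∀ a : M, IsAlgebraic k a → a ∈ Set.range (algebraMap k M)) →
        (∀ P : FF.Place k K, PlaceOn k X e P → UnramifiedAt M P) →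
        Function.Surjective (algebraMap K M)) →
      HilbertProperty k X p ∧
      ((∀ x : X, IsIntegrallyClosed (X.presheaf.stalk x)) → HilbertPropertyIso k X p)) :=
  ⟨opens k K X p ⟨e, he⟩ L hL hinv,
    fun hd => (hilb k hk K X p e he hd L hL hinv).2.1,
    fun hd => (hilb k hk K X p e he hd L hL hinv).2.2⟩

end Pool.Agent.Results.MP_87f965_ag.ConicFibrations
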