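import Pool.Agent.Y214.HB.Main

/-!
# Rational points outside thin sets on 100% of the Fano hypersurfaces over the rational numbers

Let `n ≥ 3` and `2 ≤ d ≤ n`. Among the smooth hypersurfaces `f = 0` of degree `d` in `ℙⁿ`, with
integral forms `f` with coefficients bounded by `H`, which have points over the real numbers and
over all the `p`-adic fields, a proportion tending to `1` as `H → ∞` has rational points outside
all the thin subsets of `ℙⁿ(ℚ)` of complexity at most `m(H)`, where `m(H) → ∞`; these points can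
even be chosen within `1 / m(H)` of arbitrary points over the real numbers and over the `p`-adic
fields with `p ≤ m(H)`. In particular the rational points of 100% of these hypersurfaces are not
contained in a given thin subset of `ℙⁿ(ℚ)`.
-/

set_option autoImplicit false

namespace Pool.Agent.Results.MP_87f965_ag.RandomHypersurfaces

open Polynomial Filter

/-- The forms of degree `d` in the variables `x₀, …, xₙ` whose coefficients are integers of
absolute value at most `H`. -/
def Forms (n d H : ℕ) : Set (MvPolynomial (Fin (n + 1)) ℤ) :=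
  {f | f.IsHomogeneous d ∧ ∀ u, |f.coeff u| ≤ (H : ℤ)}

/-- The hypersurface `f = 0` in `ℙⁿ` is smooth: there is no point over a field of characteristic
zero at which `f` and all its partial derivatives vanish. -/
def Smooth {n : ℕ} (f : MvPolynomial (Fin (n + 1)) ℤ) : Prop :=
  ∀ (K : Type) [Field K] [CharZero K] (x : Fin (n + 1) → K), x ≠ 0 →
    MvPolynomial.aeval x f = 0 → ∃ i, MvPolynomial.aeval x (MvPolynomial.pderiv i f) ≠ 0

/-- The hypersurface `f = 0` in `ℙⁿ` has points over the real numbers and over all the `p`-adic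
fields. -/
def LocallySoluble {n : ℕ} (f : MvPolynomial (Fin (n + 1)) ℤ) : Prop :=
  (∃ x : Fin (n + 1) → ℝ, x ≠ 0 ∧ MvPolynomial.aeval x f = 0) ∧
    ∀ (p : ℕ) [Fact p.Prime], ∃ x : Fin (n + 1) → ℚ_[p], x ≠ 0 ∧ MvPolynomial.aeval x f = 0

/-- The polynomials `P(x, w)` in `w`, whose coefficients are forms of one and the same degree in
`x₀, …, xₙ` with integral coefficients, and which have no root `w` in the field of rational
functions `ℚ(x₀, …, xₙ)`. Whether the rational polynomial `P(x, w)` has a rational root `w` only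
depends on the point `x` of `ℙⁿ(ℚ)`, and the sets of these points, and their subsets, are the thin
subsets of `ℙⁿ(ℚ)`. -/
def Covers (n : ℕ) : Set (MvPolynomial (Fin (n + 1)) ℤ)[X] :=
  {P | (∃ D, ∀ k, (P.coeff k).IsHomogeneous D) ∧
    ∀ r : FractionRing (MvPolynomial (Fin (n + 1)) ℤ), aeval r P ≠ 0}

/-- The polynomials `P ∈ Covers n` of complexity at most `m`: the degree of `P` in `w`, the degree
of `P` in `x₀, …, xₙ` and the absolute values of the integral coefficients are at most `m`. -/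
def BoundedCovers (n m : ℕ) : Set (MvPolynomial (Fin (n + 1)) ℤ)[X] :=
  {P | P ∈ Covers n ∧ P.natDegree ≤ m ∧ ∀ k, (P.coeff k).totalDegree ≤ m ∧
    ∀ u, |(P.coeff k).coeff u| ≤ (m : ℤ)}

/-- The value of `P` at the rational vector `x` and the rational number `w`. -/
noncomputable def value {n : ℕ} (P : (MvPolynomial (Fin (n + 1)) ℤ)[X]) (x : Fin (n + 1) → ℚ)
    (w : ℚ) : ℚ :=
  P.eval₂ (MvPolynomial.eval₂Hom (Int.castRingHom ℚ) x) w

/-- Weak approximation for the hypersurface `f = 0` in `ℙⁿ`, to precision `1 / m` at the real place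
and at the primes up to `m`, by rational points outside the thin sets of complexity at most `m`:
for all real points `y` and `p`-adic points `z p` of the hypersurface, one for each prime `p`,
there is a rational point `x` of the hypersurface such that, for suitable representatives of the
point `x` of the projective space, the coordinates of `y - x` are at most `‖y‖ / m` and the
coordinates of `z p - x` are at most `‖z p‖ / m` for all the primes `p ≤ m` (`‖y‖` and `‖z p‖`
being the largest absolute value of a coordinate), and such that `P(x, w)` has no rational root `w`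
for all the covers `P` of complexity at most `m`. -/
def ApproximationOutsideThinSets {n : ℕ} (m : ℕ) (f : MvPolynomial (Fin (n + 1)) ℤ) : Prop :=
  ∀ (z : ∀ (p : ℕ) [Fact p.Prime], Fin (n + 1) → ℚ_[p]) (y : Fin (n + 1) → ℝ),
    (∀ (p : ℕ) [Fact p.Prime], z p ≠ 0 ∧ MvPolynomial.aeval (z p) f = 0) → y ≠ 0 →
    MvPolynomial.aeval y f = 0 →
    ∃ x : Fin (n + 1) → ℚ, x ≠ 0 ∧ MvPolynomial.aeval x f = 0 ∧
      (∀ (p : ℕ) [Fact p.Prime], p ≤ m → ∃ c : ℚ_[p], c ≠ 0 ∧
        ∀ i, ‖z p i - c * (x i : ℚ_[p])‖ ≤ ‖z p‖ / m) ∧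
      (∃ c : ℝ, c ≠ 0 ∧ ∀ i, |y i - c * (x i : ℝ)| ≤ ‖y‖ / m) ∧
      ∀ P ∈ BoundedCovers n m, ∀ w : ℚ, value P x w ≠ 0

/-- The hypersurface `f = 0` in `ℙⁿ` has a rational point `x` outside the thin set of `P`. -/
def PointOutside {n : ℕ} (P : (MvPolynomial (Fin (n + 1)) ℤ)[X])
    (f : MvPolynomial (Fin (n + 1)) ℤ) : Prop :=
  ∃ x : Fin (n + 1) → ℚ, x ≠ 0 ∧ MvPolynomial.aeval x f = 0 ∧ ∀ w : ℚ, value P x w ≠ 0

theorem bounded_cov {n m : ℕ} {P : (MvPolynomial (Fin (n + 1)) ℤ)[X]}
    (h : P ∈ BoundedCovers n m) : P ∈ Pool.Agent.Y214.HB.Cov n m := by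
  obtain ⟨⟨⟨D, hD⟩, hr⟩, hdeg, hk⟩ := h
  have hr' : Pool.Agent.Y214.HB.NoRoot P := by
    intro r h0
    apply hr r
    rw [← h0]
    unfold Pool.Agent.Y214.HB.toK
    rw [eval_map_algebraMap]
  refine ⟨hdeg, ?_, fun k u => (hk k).2 u, hr'⟩
  obtain ⟨k, hk0⟩ : ∃ k, P.coeff k ≠ 0 := by
    by_contra hcon
    push Not at hcon
    apply hr 0
    have h0 : P = 0 := Polynomial.ext (by simpa using hcon)
    rw [h0, map_zero]
  refine ⟨D, ?_, hD⟩
  rw [← (hD k).totalDegree hk0]
  exact (hk k).1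

theorem bounded_mono {n m m' : ℕ} (hm : m ≤ m') {P : (MvPolynomial (Fin (n + 1)) ℤ)[X]}
    (h : P ∈ BoundedCovers n m) : P ∈ BoundedCovers n m' :=
  ⟨h.1, h.2.1.trans hm, fun k => ⟨(h.2.2 k).1.trans hm,
    fun u => ((h.2.2 k).2 u).trans (by exact_mod_cast hm)⟩⟩

theorem exists_bounded {n : ℕ} {P : (MvPolynomial (Fin (n + 1)) ℤ)[X]} (h : P ∈ Covers n) :
    ∃ m, P ∈ BoundedCovers n m := by
  classical
  obtain ⟨m₁, h₁⟩ := Finset.exists_le (P.support.image fun k => (P.coeff k).totalDegree)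
  obtain ⟨m₂, h₂⟩ := Finset.exists_le (P.support.biUnion fun k => (P.coeff k).support.image
    fun u => ((P.coeff k).coeff u).natAbs)
  refine ⟨max P.natDegree (max m₁ m₂), h, le_max_left _ _, fun k => ?_⟩
  by_cases hk : k ∈ P.support
  · refine ⟨(h₁ _ (Finset.mem_image_of_mem _ hk)).trans
      ((le_max_left _ _).trans (le_max_right _ _)), fun u => ?_⟩
    by_cases hu : u ∈ (P.coeff k).support
    · have h3 := h₂ _ (Finset.mem_biUnion.mpr ⟨k, hk, Finset.mem_image_of_mem _ hu⟩)
      have h4 : ((P.coeff k).coeff u).natAbs ≤ max P.natDegree (max m₁ m₂) :=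
        h3.trans ((le_max_right _ _).trans (le_max_right _ _))
      rw [Int.abs_eq_natAbs]
      exact_mod_cast h4
    · rw [MvPolynomial.notMem_support_iff.mp hu, abs_zero]
      positivity
  · rw [Polynomial.notMem_support_iff.mp hk]
    refine ⟨by simp, fun u => ?_⟩
    rw [MvPolynomial.coeff_zero, abs_zero]
    positivity

theorem approx_of_wap {n m : ℕ} {f : MvPolynomial (Fin (n + 1)) ℤ}
    (hFIN : Pool.Agent.Y214.HB.S_FIN)
    (h : Pool.Agent.Y214.HB.WAP m f (Pool.Agent.Y214.HB.Ptot hFIN n m)) :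
    ApproximationOutsideThinSets m f := by
  intro z y hz hy hyf
  obtain ⟨x, hx0, hxf, hx1, hx2, hx3⟩ := h z y hz hy hyf
  refine ⟨x, hx0, hxf, hx1, hx2, fun P hP w => ?_⟩
  have h1 := Pool.Agent.Y214.HB.ptot_eval hFIN (hx3 w) (bounded_cov hP)
  rw [eval_map] at h1
  exact h1

theorem smooth_iff {n : ℕ} (f : MvPolynomial (Fin (n + 1)) ℤ) :
    Pool.Agent.Y697.C13.SmoothS (fun _ : Fin 1 => f) ↔ Smooth f := by
  constructor
  · intro hf K _ _ x hx h0
    obtain ⟨i, hi⟩ := hf K x (fun _ => 1) hx (fun h => one_ne_zero (congrFun h 0)) (fun _ => h0)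
    exact ⟨i, fun h1 => hi (by simp [h1])⟩
  · intro hf K _ _ x l hx hl h0
    obtain ⟨i, hi⟩ := hf K x hx (h0 0)
    have hl0 : l 0 ≠ 0 := fun h1 => hl (funext fun j => by rw [Subsingleton.elim j 0, h1]; rfl)
    exact ⟨i, by simpa using ⟨hl0, hi⟩⟩

/-- Let `n ≥ 3` and `2 ≤ d ≤ n`. There is a function `m` tending to infinity such that 100% of the
everywhere locally soluble smooth hypersurfaces of degree `d` in `ℙⁿ` of height at most `H` have
rational points within `1 / m(H)` of arbitrary local points at the real place and at the primes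
up to `m(H)` and outside all the thin sets of complexity at most `m(H)`. In particular the rational
points of 100% of these hypersurfaces are not contained in a given thin set. -/
theorem result (n d : ℕ) (hn : 3 ≤ n) (h2 : 2 ≤ d) (hd : d ≤ n) :
    (∃ m : ℕ → ℕ, Tendsto m atTop atTop ∧
      Tendsto (fun H : ℕ =>
        (({f | f ∈ Forms n d H ∧ Smooth f ∧ LocallySoluble f ∧
          ApproximationOutsideThinSets (m H) f} : Set _).ncard : ℝ) /
        (({f | f ∈ Forms n d H ∧ Smooth f ∧ LocallySoluble f} : Set _).ncard : ℝ))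
      atTop (nhds 1)) ∧
    ∀ P ∈ Covers n, Tendsto (fun H : ℕ =>
        (({f | f ∈ Forms n d H ∧ Smooth f ∧ LocallySoluble f ∧
          PointOutside P f} : Set _).ncard : ℝ) /
        (({f | f ∈ Forms n d H ∧ Smooth f ∧ LocallySoluble f} : Set _).ncard : ℝ))
      atTop (nhds 1) := by
  have hfin : ∀ H, (Forms n d H).Finite := fun H => Pool.Agent.Y214.HB.fm_finite n d H
  have key : ∃ m : ℕ → ℕ, Tendsto m atTop atTop ∧
      Tendsto (fun H : ℕ =>
        (({f | f ∈ Forms n d H ∧ Smooth f ∧ LocallySoluble f ∧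
          ApproximationOutsideThinSets (m H) f} : Set _).ncard : ℝ) /
        (({f | f ∈ Forms n d H ∧ Smooth f ∧ LocallySoluble f} : Set _).ncard : ℝ))
      atTop (nhds 1) := by
    obtain ⟨m, hm, hlim⟩ := Pool.Agent.Y214.HB.main_of hn h2 hd Pool.Agent.Y214.HB.den
      Pool.Agent.Y945.HB.t_FAC Pool.Agent.Y214.HB.base Pool.Agent.Y214.HB.fix
      Pool.Agent.Y420.HB.t_FIN
    refine ⟨m, hm, ?_⟩
    have hden : ∀ H : ℕ, ({g : Fin 1 → MvPolynomial (Fin (n + 1)) ℤ |
          (∀ j, (g j).IsHomogeneous ((fun _ : Fin 1 => d - 2) j + 2) ∧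
            ∀ m, |(g j).coeff m| ≤ (H : ℤ)) ∧ Pool.Agent.Y697.C13.SmoothS g ∧
            Pool.Agent.Y716.C.ElsS g} : Set _).ncard =
        ({f | f ∈ Forms n d H ∧ Smooth f ∧ LocallySoluble f} : Set _).ncard := by
      intro H
      exact (Pool.Agent.Y214.HB.card_conv h2 H (fun f => Smooth f ∧ LocallySoluble f)
        (fun g => Pool.Agent.Y697.C13.SmoothS g ∧ Pool.Agent.Y716.C.ElsS g) (fun f => by
          rw [smooth_iff, Pool.Agent.Y214.HB.els_iff]; rfl)).symm
    have hnum : ∀ H : ℕ, ({g : Fin 1 → MvPolynomial (Fin (n + 1)) ℤ |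
          (∀ j, (g j).IsHomogeneous ((fun _ : Fin 1 => d - 2) j + 2) ∧
            ∀ m, |(g j).coeff m| ≤ (H : ℤ)) ∧ Pool.Agent.Y697.C13.SmoothS g ∧
            Pool.Agent.Y716.C.ElsS g ∧ Pool.Agent.Y214.HB.WAP (m H) (g 0)
              (Pool.Agent.Y214.HB.Ptot Pool.Agent.Y420.HB.t_FIN n (m H))} : Set _).ncard =
        ({f | f ∈ Forms n d H ∧ Smooth f ∧ LocallySoluble f ∧
          Pool.Agent.Y214.HB.WAP (m H) f
            (Pool.Agent.Y214.HB.Ptot Pool.Agent.Y420.HB.t_FIN n (m H))} : Set _).ncard := by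
      intro H
      exact (Pool.Agent.Y214.HB.card_conv h2 H (fun f => Smooth f ∧ LocallySoluble f ∧
          Pool.Agent.Y214.HB.WAP (m H) f
            (Pool.Agent.Y214.HB.Ptot Pool.Agent.Y420.HB.t_FIN n (m H)))
        (fun g => Pool.Agent.Y697.C13.SmoothS g ∧ Pool.Agent.Y716.C.ElsS g ∧
          Pool.Agent.Y214.HB.WAP (m H) (g 0)
            (Pool.Agent.Y214.HB.Ptot Pool.Agent.Y420.HB.t_FIN n (m H))) (fun f => by
          rw [smooth_iff, Pool.Agent.Y214.HB.els_iff]; rfl)).symm
    refine tendsto_of_tendsto_of_tendsto_of_le_of_le hlim tendsto_const_nhds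
      (fun H => ?_) (fun H => ?_)
    · simp only
      rw [hden H, hnum H]
      apply div_le_div_of_nonneg_right _ (Nat.cast_nonneg _)
      have hsub : {f | f ∈ Forms n d H ∧ Smooth f ∧ LocallySoluble f ∧
          Pool.Agent.Y214.HB.WAP (m H) f
            (Pool.Agent.Y214.HB.Ptot Pool.Agent.Y420.HB.t_FIN n (m H))} ⊆
          {f | f ∈ Forms n d H ∧ Smooth f ∧ LocallySoluble f ∧
          ApproximationOutsideThinSets (m H) f} :=
        fun f hf => ⟨hf.1, hf.2.1, hf.2.2.1, approx_of_wap _ hf.2.2.2⟩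
      exact_mod_cast Set.ncard_le_ncard hsub ((hfin H).subset (fun f hf => hf.1))
    · apply div_le_one_of_le₀ _ (Nat.cast_nonneg _)
      have hsub : {f | f ∈ Forms n d H ∧ Smooth f ∧ LocallySoluble f ∧
          ApproximationOutsideThinSets (m H) f} ⊆
          {f | f ∈ Forms n d H ∧ Smooth f ∧ LocallySoluble f} :=
        fun f hf => ⟨hf.1, hf.2.1, hf.2.2.1⟩
      exact (Nat.cast_le (α := ℝ)).mpr
        (Set.ncard_le_ncard hsub ((hfin H).subset (fun f hf => hf.1)))
  refine ⟨key, fun P hP => ?_⟩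
  obtain ⟨m, hm, hlim⟩ := key
  obtain ⟨m₀, hm₀⟩ := exists_bounded hP
  refine tendsto_of_tendsto_of_tendsto_of_le_of_le' hlim tendsto_const_nhds ?_ ?_
  · filter_upwards [tendsto_atTop.mp hm m₀] with H hH
    apply div_le_div_of_nonneg_right _ (Nat.cast_nonneg _)
    have hsub : {f | f ∈ Forms n d H ∧ Smooth f ∧ LocallySoluble f ∧
          ApproximationOutsideThinSets (m H) f} ⊆
        {f | f ∈ Forms n d H ∧ Smooth f ∧ LocallySoluble f ∧ PointOutside P f} := by
      rintro f ⟨hf, hs, hl, ha⟩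
      refine ⟨hf, hs, hl, ?_⟩
      obtain ⟨y, hy0, hyf⟩ := hl.1
      obtain ⟨x, hx0, hxf, -, -, hx⟩ := ha (fun p _ => (hl.2 p).choose) y
        (fun p _ => (hl.2 p).choose_spec) hy0 hyf
      exact ⟨x, hx0, hxf, fun w => hx P (bounded_mono hH hm₀) w⟩
    exact_mod_cast Set.ncard_le_ncard hsub ((hfin H).subset (fun f hf => hf.1))
  · filter_upwards with H
    apply div_le_one_of_le₀ _ (Nat.cast_nonneg _)
    have hsub : {f | f ∈ Forms n d H ∧ Smooth f ∧ LocallySoluble f ∧ PointOutside P f} ⊆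
        {f | f ∈ Forms n d H ∧ Smooth f ∧ LocallySoluble f} :=
      fun f hf => ⟨hf.1, hf.2.1, hf.2.2.1⟩
    exact_mod_cast Set.ncard_le_ncard hsub ((hfin H).subset (fun f hf => hf.1))

end Pool.Agent.Results.MP_87f965_ag.RandomHypersurfaces
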